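import Mathlib
import Pool.Agent.Helper42.Speed.Regen
import Pool.Agent.Helper86.Speed.Renewal

/-! Abstract regeneration structure (module U2 of MP_f07f0f_pr). -/

namespace Pool.Agent.Helper97.Speed

open MeasureTheory Filter Topology ENNReal

namespace RegenAux

/-- the set where `k` is the first positive index whose set contains `ω` -/
def Fst {Ω : Type*} (Reg : ℕ → Set Ω) (k : ℕ) : Set Ω :=
  {ω | ω ∈ Reg k ∧ ∀ j, 1 ≤ j → j < k → ω ∉ Reg j}

theorem measurableSet_Fst {Ω : Type*} [MeasurableSpace Ω] {Reg : ℕ → Set Ω}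
    (hReg : ∀ n, MeasurableSet (Reg n)) (k : ℕ) : MeasurableSet (Fst Reg k) := by
  have : Fst Reg k = Reg k ∩ ⋂ j, ⋂ (_ : 1 ≤ j), ⋂ (_ : j < k), (Reg j)ᶜ := by
    ext ω
    simp [Fst]
  rw [this]
  exact (hReg k).inter (MeasurableSet.iInter fun j => MeasurableSet.iInter fun _ =>
    MeasurableSet.iInter fun _ => (hReg j).compl)

theorem disjoint_Fst {Ω : Type*} {Reg : ℕ → Set Ω} {k l : ℕ} (hk : 1 ≤ k) (hl : 1 ≤ l)
    (hkl : k ≠ l) : Disjoint (Fst Reg k) (Fst Reg l) := by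
  rw [Set.disjoint_left]
  intro ω h1 h2
  rcases lt_or_gt_of_ne hkl with h | h
  · exact h2.2 k hk h h1.1
  · exact h1.2 l hl h h2.1

theorem exists_Fst {Ω : Type*} {Reg : ℕ → Set Ω} {n : ℕ} {ω : Ω} (hn : 1 ≤ n) (h : ω ∈ Reg n) :
    ∃ k, 1 ≤ k ∧ k ≤ n ∧ ω ∈ Fst Reg k := by
  classical
  have hex : ∃ k, 1 ≤ k ∧ ω ∈ Reg k := ⟨n, hn, h⟩
  refine ⟨Nat.find hex, (Nat.find_spec hex).1, Nat.find_min' hex ⟨hn, h⟩, (Nat.find_spec hex).2, ?_⟩
  intro j hj hjk hjr
  exact Nat.find_min hex hjk ⟨hj, hjr⟩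

/-- decomposition of `Reg n` according to the first index -/
theorem measure_Reg {Ω : Type*} [MeasurableSpace Ω] (ρ : Measure Ω) {Reg : ℕ → Set Ω}
    (hReg : ∀ n, MeasurableSet (Reg n)) {n : ℕ} (hn : 1 ≤ n) :
    ρ (Reg n) = ∑ k ∈ Finset.Icc 1 n, ρ (Fst Reg k ∩ Reg n) := by
  rw [← measure_biUnion_finset]
  · congr 1
    ext ω
    simp only [Set.mem_iUnion, Finset.mem_Icc, Set.mem_inter_iff, exists_prop]
    constructor
    · intro h
      obtain ⟨k, h1, h2, h3⟩ := exists_Fst hn h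
      exact ⟨k, ⟨h1, h2⟩, h3, h⟩
    · rintro ⟨k, _, _, h⟩
      exact h
  · intro k hk l hl hkl
    simp only [Finset.coe_Icc, Set.mem_Icc] at hk hl
    exact (disjoint_Fst hk.1 hl.1 hkl).mono Set.inter_subset_left Set.inter_subset_left
  · intro k _
    exact (measurableSet_Fst hReg k).inter (hReg n)

/-- the (delayed) renewal equation -/
theorem measure_Reg_renewal {Ω Ω' : Type*} [MeasurableSpace Ω] [MeasurableSpace Ω']
    (ν : Measure Ω) (ρ : Measure Ω')
    (Reg : ℕ → Set Ω) (hReg : ∀ n, MeasurableSet (Reg n))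
    (Reg' : ℕ → Set Ω') (S' : ℕ → Ω' → Ω) (hReg' : ∀ n, MeasurableSet (Reg' n))
    (hcomp : ∀ n k ω, 1 ≤ n → 1 ≤ k → ω ∈ Reg' n → (ω ∈ Reg' (n + k) ↔ S' n ω ∈ Reg k))
    (hren : ∀ k, 1 ≤ k → ∀ B, MeasurableSet B →
      ρ (Fst Reg' k ∩ S' k ⁻¹' B) = ρ (Fst Reg' k) * ν B) {n : ℕ} (hn : 1 ≤ n) :
    ρ (Reg' n) = ∑ k ∈ Finset.Icc 1 n, ρ (Fst Reg' k) * (if k = n then 1 else ν (Reg (n - k))) := by
  rw [measure_Reg ρ hReg' hn]
  apply Finset.sum_congr rfl
  intro k hk
  rw [Finset.mem_Icc] at hk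
  split_ifs with h
  · subst h
    rw [mul_one]
    congr 1
    exact Set.inter_eq_left.2 fun ω hω => hω.1
  · rw [← hren k hk.1 _ (hReg (n - k))]
    congr 1
    ext ω
    simp only [Set.mem_inter_iff, Set.mem_preimage]
    have h1 : 1 ≤ n - k := by omega
    have h2 : k + (n - k) = n := by omega
    constructor
    · rintro ⟨h3, h4⟩
      refine ⟨h3, ?_⟩
      rw [← h2] at h4
      exact (hcomp k (n - k) ω hk.1 h1 h3.1).1 h4
    · rintro ⟨h3, h4⟩
      refine ⟨h3, ?_⟩
      have := (hcomp k (n - k) ω hk.1 h1 h3.1).2 h4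
      rwa [h2] at this

end RegenAux

open RegenAux

/-- delayed renewal bound; `Reg'`, `S'` may live on another space. -/
theorem delayed_low {Ω Ω' : Type*} [MeasurableSpace Ω] [MeasurableSpace Ω'] (ν : Measure Ω)
    [IsProbabilityMeasure ν] (ρ : Measure Ω') [IsFiniteMeasure ρ]
    (Reg : ℕ → Set Ω) (hReg : ∀ n, MeasurableSet (Reg n))
    (Reg' : ℕ → Set Ω') (S' : ℕ → Ω' → Ω) (hReg' : ∀ n, MeasurableSet (Reg' n))
    (hS' : ∀ n, Measurable (S' n))
    (hcomp : ∀ n k ω, 1 ≤ n → 1 ≤ k → ω ∈ Reg' n → (ω ∈ Reg' (n + k) ↔ S' n ω ∈ Reg k))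
    (hren : ∀ k, 1 ≤ k → ∀ B, MeasurableSet B →
      ρ ({ω | ω ∈ Reg' k ∧ ∀ j, 1 ≤ j → j < k → ω ∉ Reg' j} ∩ S' k ⁻¹' B) =
        ρ {ω | ω ∈ Reg' k ∧ ∀ j, 1 ≤ j → j < k → ω ∉ Reg' j} * ν B) (n : ℕ) :
    ∑ k ∈ Finset.Icc 1 n, ρ (Reg' k) ≤ ρ Set.univ * (1 + ∑ k ∈ Finset.Icc 1 n, ν (Reg k)) := by
  have h1 : ∀ m ∈ Finset.Icc 1 n, ρ (Reg' m) =
      ∑ k ∈ Finset.Icc 1 n, ρ (Fst Reg' k) *
        (if k = m then 1 else if k < m then ν (Reg (m - k)) else 0) := by
    intro m hm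
    rw [Finset.mem_Icc] at hm
    rw [measure_Reg_renewal ν ρ Reg hReg Reg' S' hReg' hcomp hren hm.1]
    have h2 : ∀ k ∈ Finset.Icc 1 n, k ∉ Finset.Icc 1 m → ρ (Fst Reg' k) *
        (if k = m then 1 else if k < m then ν (Reg (m - k)) else 0) = 0 := by
      intro k hk hk'
      rw [Finset.mem_Icc] at hk hk'
      have h3 : ¬ k = m := by omega
      have h4 : ¬ k < m := by omega
      rw [if_neg h3, if_neg h4, mul_zero]
    rw [← Finset.sum_subset (Finset.Icc_subset_Icc le_rfl hm.2) h2]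
    apply Finset.sum_congr rfl
    intro k hk
    rw [Finset.mem_Icc] at hk
    by_cases h3 : k = m
    · rw [if_pos h3, if_pos h3]
    · have h4 : k < m := by omega
      rw [if_neg h3, if_neg h3, if_pos h4]
  rw [Finset.sum_congr rfl h1, Finset.sum_comm]
  have h5 : ∀ k ∈ Finset.Icc 1 n, ∑ m ∈ Finset.Icc 1 n, ρ (Fst Reg' k) *
        (if k = m then 1 else if k < m then ν (Reg (m - k)) else 0) ≤
      ρ (Fst Reg' k) * (1 + ∑ k ∈ Finset.Icc 1 n, ν (Reg k)) := by
    intro k hk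
    rw [← Finset.mul_sum]
    gcongr
    rw [Finset.mem_Icc] at hk
    have h6 : ∀ m ∈ Finset.Icc 1 n, (if k = m then (1 : ℝ≥0∞) else if k < m then ν (Reg (m - k))
        else 0) = (if k = m then 1 else 0) + (if k < m then ν (Reg (m - k)) else 0) := by
      intro m _
      by_cases h7 : k = m
      · subst h7
        simp
      · rw [if_neg h7, if_neg h7, zero_add]
    rw [Finset.sum_congr rfl h6, Finset.sum_add_distrib]
    apply add_le_add
    · rw [Finset.sum_ite_eq]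
      split_ifs
      · exact le_rfl
      · exact zero_le_one
    · rw [← Finset.sum_filter]
      have : ∑ m ∈ Finset.Icc 1 n with k < m, ν (Reg (m - k)) =
          ∑ j ∈ (Finset.filter (fun m => k < m) (Finset.Icc 1 n)).image (fun m => m - k),
            ν (Reg j) := by
        rw [Finset.sum_image]
        intro a ha b hb hab
        simp only [Finset.coe_filter, Finset.mem_Icc, Set.mem_setOf_eq] at ha hb
        simp only at hab
        omega
      rw [this]
      apply Finset.sum_le_sum_of_subset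
      intro j hj
      simp only [Finset.mem_image, Finset.mem_filter, Finset.mem_Icc] at hj ⊢
      obtain ⟨m, hm, rfl⟩ := hj
      omega
  refine (Finset.sum_le_sum h5).trans ?_
  rw [← Finset.sum_mul]
  gcongr
  rw [← measure_biUnion_finset]
  · exact measure_mono (Set.subset_univ _)
  · intro k hk l hl hkl
    simp only [Finset.coe_Icc, Set.mem_Icc] at hk hl
    exact disjoint_Fst hk.1 hl.1 hkl
  · intro k _
    exact measurableSet_Fst hReg' k

/-- a positive density of renewals has to occur -/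
theorem regen_exists {Ω Ω' : Type*} [MeasurableSpace Ω] [MeasurableSpace Ω'] (ν : Measure Ω)
    [IsProbabilityMeasure ν] (ρ : Measure Ω') [IsFiniteMeasure ρ]
    (Reg' : ℕ → Set Ω') (S' : ℕ → Ω' → Ω) (hReg' : ∀ n, MeasurableSet (Reg' n))
    (hS' : ∀ n, Measurable (S' n))
    (hren : ∀ k, 1 ≤ k → ∀ B, MeasurableSet B →
      ρ ({ω | ω ∈ Reg' k ∧ ∀ j, 1 ≤ j → j < k → ω ∉ Reg' j} ∩ S' k ⁻¹' B) =
        ρ {ω | ω ∈ Reg' k ∧ ∀ j, 1 ≤ j → j < k → ω ∉ Reg' j} * ν B)
    (c : ℝ≥0∞) (C : ℝ≥0∞) (hC : C ≠ ⊤)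
    (hlow : ∀ n : ℕ, c * ρ Set.univ * n ≤ (∑ k ∈ Finset.Icc 1 n, ρ (Reg' k)) + C)
    (B : Set Ω) (hB : MeasurableSet B) :
    c * ρ Set.univ * ν B ≤ ρ {ω | ∃ k, 1 ≤ k ∧ ω ∈ Reg' k ∧ S' k ω ∈ B} := by
  set U : Set Ω' := ⋃ k : ℕ, Fst Reg' (k + 1) with hU
  have hdis : Pairwise (Function.onFun Disjoint fun k : ℕ => Fst Reg' (k + 1)) := by
    intro k l hkl
    exact disjoint_Fst (by omega) (by omega) (by omega)
  have hsub : ∀ k, 1 ≤ k → Reg' k ⊆ U := by
    intro k hk ω hω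
    obtain ⟨l, h1, h2, h3⟩ := exists_Fst hk hω
    rw [hU, Set.mem_iUnion]
    refine ⟨l - 1, ?_⟩
    rwa [Nat.sub_add_cancel h1]
  have h1 : ∀ n : ℕ, 1 ≤ n → c * ρ Set.univ ≤ ρ U + C / n := by
    intro n hn
    have hn0 : (n : ℝ≥0∞) ≠ 0 := by
      exact_mod_cast (by omega : n ≠ 0)
    have h2 : c * ρ Set.univ * n ≤ n * ρ U + C := by
      refine (hlow n).trans ?_
      gcongr
      calc ∑ k ∈ Finset.Icc 1 n, ρ (Reg' k) ≤ ∑ k ∈ Finset.Icc 1 n, ρ U := by
            apply Finset.sum_le_sum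
            intro k hk
            exact measure_mono (hsub k (Finset.mem_Icc.1 hk).1)
        _ = n * ρ U := by simp
    have h3 : c * ρ Set.univ ≤ (n * ρ U + C) / n := by
      rw [ENNReal.le_div_iff_mul_le (Or.inl hn0) (Or.inl (ENNReal.natCast_ne_top n))]
      exact h2
    refine h3.trans (le_of_eq ?_)
    rw [ENNReal.add_div, mul_comm, mul_div_assoc, ENNReal.div_self hn0 (ENNReal.natCast_ne_top n),
      mul_one]
  have h2 : c * ρ Set.univ ≤ ρ U := by
    have h3 : Tendsto (fun n : ℕ => ρ U + C / n) atTop (𝓝 (ρ U + 0)) := by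
      apply Tendsto.const_add
      have h4 := ENNReal.Tendsto.const_mul (a := C) ENNReal.tendsto_inv_nat_nhds_zero (Or.inr hC)
      rw [mul_zero] at h4
      simpa only [div_eq_mul_inv] using h4
    rw [add_zero] at h3
    apply ge_of_tendsto h3
    filter_upwards [eventually_ge_atTop 1] with n hn
    exact h1 n hn
  have h4 : ρ U = ∑' k : ℕ, ρ (Fst Reg' (k + 1)) :=
    measure_iUnion hdis fun k => measurableSet_Fst hReg' _
  have h5 : (⋃ k : ℕ, (Fst Reg' (k + 1) ∩ S' (k + 1) ⁻¹' B)) ⊆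
      {ω | ∃ k, 1 ≤ k ∧ ω ∈ Reg' k ∧ S' k ω ∈ B} := by
    intro ω hω
    rw [Set.mem_iUnion] at hω
    obtain ⟨k, h6, h7⟩ := hω
    exact ⟨k + 1, by omega, h6.1, h7⟩
  calc c * ρ Set.univ * ν B ≤ ρ U * ν B := by gcongr
    _ = ∑' k : ℕ, ρ (Fst Reg' (k + 1)) * ν B := by rw [h4, ENNReal.tsum_mul_right]
    _ = ∑' k : ℕ, ρ (Fst Reg' (k + 1) ∩ S' (k + 1) ⁻¹' B) := by
        apply tsum_congr
        intro k
        exact (hren (k + 1) (by omega) B hB).symm
    _ = ρ (⋃ k : ℕ, (Fst Reg' (k + 1) ∩ S' (k + 1) ⁻¹' B)) := by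
        rw [measure_iUnion]
        · intro k l hkl
          exact (hdis hkl).mono Set.inter_subset_left Set.inter_subset_left
        · intro k
          exact (measurableSet_Fst hReg' _).inter (hS' _ hB)
    _ ≤ _ := measure_mono h5

theorem regen_speed {Ω : Type*} [MeasurableSpace Ω] (ν : Measure Ω) [IsProbabilityMeasure ν]
    (Reg : ℕ → Set Ω) (S : ℕ → Ω → Ω) (hReg : ∀ n, MeasurableSet (Reg n))
    (hS : ∀ n, Measurable (S n))
    (hcomp : ∀ n k ω, 1 ≤ n → 1 ≤ k → ω ∈ Reg n → (ω ∈ Reg (n + k) ↔ S n ω ∈ Reg k) ∧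
      (ω ∈ Reg (n + k) → S (n + k) ω = S k (S n ω)))
    (hren : ∀ k, 1 ≤ k → ∀ B, MeasurableSet B →
      ν ({ω | ω ∈ Reg k ∧ ∀ j, 1 ≤ j → j < k → ω ∉ Reg j} ∩ S k ⁻¹' B) =
        ν {ω | ω ∈ Reg k ∧ ∀ j, 1 ≤ j → j < k → ω ∉ Reg j} * ν B)
    (c C : ℝ) (hc : 0 < c)
    (hlow : ∀ n : ℕ, c * n - C ≤ ∑ k ∈ Finset.Icc 1 n, (ν (Reg k)).toReal)
    (d : ℕ → Ω → ℝ) (hd : ∀ n, Measurable (d n)) (hd0 : ∀ ω, d 0 ω = 0) (hnn : ∀ n ω, 0 ≤ d n ω)
    (hlip : ∀ n ω, |d (n + 1) ω - d n ω| ≤ 1)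
    (hsub : ∀ n k ω, 1 ≤ n → ω ∈ Reg n → d (n + k) ω ≤ d n ω + d k (S n ω)) :
    ∃ L : Ω → ℝ, Measurable L ∧ ∀ᵐ ω ∂ν, Tendsto (fun n : ℕ => d n ω / n) atTop (𝓝 (L ω)) := by
  classical
  have hdis : Pairwise (Function.onFun Disjoint fun k : ℕ => Fst Reg (k + 1)) := by
    intro k l hkl
    exact disjoint_Fst (by omega) (by omega) (by omega)
  -- the renewal sequence
  set f : ℕ → ℝ := fun k => if k = 0 then 0 else (ν (Fst Reg k)).toReal with hf
  set u : ℕ → ℝ := fun k => if k = 0 then 1 else (ν (Reg k)).toReal with hu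
  have hf0 : f 0 = 0 := by simp [hf]
  have hfnn : ∀ k, 0 ≤ f k := by
    intro k
    simp only [hf]
    split_ifs
    · exact le_rfl
    · exact ENNReal.toReal_nonneg
  have hsum : ∀ n, ∑ k ∈ Finset.range n, f k ≤ 1 := by
    intro n
    have h1 : ∑ k ∈ Finset.range n, f k ≤ ∑ k ∈ Finset.range n, (ν (Fst Reg (k + 1))).toReal := by
      rcases n with _ | n
      · simp
      · rw [Finset.sum_range_succ', hf0, add_zero, Finset.sum_range_succ]
        have : ∀ k, f (k + 1) = (ν (Fst Reg (k + 1))).toReal := by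
          intro k
          simp [hf]
        simp only [this]
        linarith [ENNReal.toReal_nonneg (a := ν (Fst Reg (n + 1)))]
    refine h1.trans ?_
    rw [← ENNReal.toReal_sum (fun k _ => measure_ne_top ν _), ← measure_biUnion_finset]
    · have := prob_le_one (μ := ν) (s := ⋃ b ∈ Finset.range n, Fst Reg (b + 1))
      exact ENNReal.toReal_le_of_le_ofReal zero_le_one (by simpa using this)
    · intro k _ l _ hkl
      exact hdis hkl
    · intro k _
      exact measurableSet_Fst hReg _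
  have hu0 : u 0 = 1 := by simp [hu]
  have hureq : ∀ n, 1 ≤ n → u n = ∑ k ∈ Finset.Icc 1 n, f k * u (n - k) := by
    intro n hn
    have h1 : u n = (ν (Reg n)).toReal := by
      simp only [hu]
      rw [if_neg (by omega)]
    rw [h1, measure_Reg_renewal ν ν Reg hReg Reg S hReg
      (fun n k ω h1 h2 h3 => (hcomp n k ω h1 h2 h3).1) hren hn, ENNReal.toReal_sum]
    · apply Finset.sum_congr rfl
      intro k hk
      rw [Finset.mem_Icc] at hk
      rw [ENNReal.toReal_mul]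
      have h2 : f k = (ν (Fst Reg k)).toReal := by
        simp only [hf]
        rw [if_neg (by omega)]
      rw [h2]
      congr 1
      simp only [hu]
      by_cases h3 : k = n
      · rw [if_pos h3, if_pos (by omega)]
        simp
      · rw [if_neg h3, if_neg (by omega)]
    · intro k _
      apply ENNReal.mul_ne_top (measure_ne_top ν _)
      split_ifs
      · exact one_ne_top
      · exact measure_ne_top ν _
  have hlow' : ∀ n : ℕ, c * n - C ≤ ∑ k ∈ Finset.Icc 1 n, u k := by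
    intro n
    refine (hlow n).trans (le_of_eq ?_)
    apply Finset.sum_congr rfl
    intro k hk
    rw [Finset.mem_Icc] at hk
    simp only [hu]
    rw [if_neg (by omega)]
  obtain ⟨hfs, hkf⟩ := Pool.Agent.Helper86.Speed.renewal_bound f u hf0 hfnn hsum hu0 hureq c C hc
    hlow'
  -- almost surely there is a regeneration
  set U : Set Ω := ⋃ k : ℕ, Fst Reg (k + 1) with hU
  have hUm : MeasurableSet U := MeasurableSet.iUnion fun k => measurableSet_Fst hReg _
  have hf1 : ∀ k, ENNReal.ofReal (f (k + 1)) = ν (Fst Reg (k + 1)) := by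
    intro k
    simp only [hf]
    rw [if_neg (by omega), ENNReal.ofReal_toReal (measure_ne_top ν _)]
  have hts : ∑' k : ℕ, ν (Fst Reg (k + 1)) = 1 := by
    have h1 : HasSum (fun k => f (k + 1)) 1 := by
      have := (hasSum_nat_add_iff' (f := f) 1).2 hfs
      simpa [hf0] using this
    rw [← tsum_congr hf1, ← ENNReal.ofReal_tsum_of_nonneg (fun k => hfnn _) h1.summable,
      h1.tsum_eq, ENNReal.ofReal_one]
  have hU1 : ν U = 1 := by
    rw [hU, measure_iUnion hdis fun k => measurableSet_Fst hReg _, hts]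
  have hUc : ν Uᶜ = 0 := (prob_compl_eq_zero_iff hUm).2 hU1
  have hUae : ∀ᵐ ω ∂ν, ω ∈ U := by
    rw [ae_iff]
    exact hUc
  have hUiff : ∀ ω, ω ∈ U ↔ ∃ n, 1 ≤ n ∧ ω ∈ Reg n := by
    intro ω
    rw [hU, Set.mem_iUnion]
    constructor
    · rintro ⟨k, hk⟩
      exact ⟨k + 1, by omega, hk.1⟩
    · rintro ⟨n, hn, hω⟩
      obtain ⟨k, h1, _, h3⟩ := exists_Fst hn hω
      refine ⟨k - 1, ?_⟩
      rwa [Nat.sub_add_cancel h1]
  -- the first regeneration time and the shift
  set τ : Ω → ℕ := fun ω => if h : ∃ n, 1 ≤ n ∧ ω ∈ Reg n then Nat.find h else 1 with hτdef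
  have hτU : ∀ ω ∈ U, ω ∈ Fst Reg (τ ω) := by
    intro ω hω
    have hex := (hUiff ω).1 hω
    have h1 : τ ω = Nat.find hex := by
      simp only [hτdef]
      rw [dif_pos hex]
    rw [h1]
    refine ⟨(Nat.find_spec hex).2, ?_⟩
    intro j hj hjk hjr
    exact Nat.find_min hex hjk ⟨hj, hjr⟩
  have hτ1 : ∀ ω, 1 ≤ τ ω := by
    intro ω
    simp only [hτdef]
    split_ifs with h
    · exact (Nat.find_spec h).1
    · exact le_rfl
  have hτF : ∀ k ω, ω ∈ Fst Reg (k + 1) → τ ω = k + 1 := by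
    intro k ω hω
    have hωU : ω ∈ U := by
      rw [hU, Set.mem_iUnion]
      exact ⟨k, hω⟩
    by_contra hne
    exact Set.disjoint_left.1 (disjoint_Fst (hτ1 ω) (by omega) hne) (hτU ω hωU) hω
  have hpre : ∀ k, τ ⁻¹' {k + 1} = Fst Reg (k + 1) ∪ (if k = 0 then Uᶜ else ∅) := by
    intro k
    ext ω
    simp only [Set.mem_preimage, Set.mem_singleton_iff, Set.mem_union]
    constructor
    · intro h
      by_cases hω : ω ∈ U
      · left
        rw [← h]
        exact hτU ω hω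
      · right
        have hnex : ¬ ∃ n, 1 ≤ n ∧ ω ∈ Reg n := fun h' => hω ((hUiff ω).2 h')
        have h1 : τ ω = 1 := by
          simp only [hτdef]
          rw [dif_neg hnex]
        rw [if_pos (by omega)]
        exact hω
    · rintro (h | h)
      · exact hτF k ω h
      · split_ifs at h with hk
        · have hnex : ¬ ∃ n, 1 ≤ n ∧ ω ∈ Reg n := fun h' => h ((hUiff ω).2 h')
          simp only [hτdef]
          rw [dif_neg hnex, hk]
        · exact absurd h (Set.notMem_empty ω)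
  have hpre0 : τ ⁻¹' {0} = ∅ := by
    ext ω
    simp only [Set.mem_preimage, Set.mem_singleton_iff, Set.mem_empty_iff_false, iff_false]
    have := hτ1 ω
    omega
  have hτm : Measurable τ := by
    apply measurable_to_countable'
    intro k
    rcases k with _ | k
    · rw [hpre0]
      exact MeasurableSet.empty
    · rw [hpre k]
      apply (measurableSet_Fst hReg _).union
      split_ifs
      · exact hUm.compl
      · exact MeasurableSet.empty
  have hντ : ∀ k, ν (τ ⁻¹' {k}) = ENNReal.ofReal (f k) := by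
    intro k
    rcases k with _ | k
    · rw [hpre0, measure_empty, hf0, ENNReal.ofReal_zero]
    · rw [hf1 k, hpre k]
      apply le_antisymm
      · refine (measure_union_le _ _).trans ?_
        have : ν (if k = 0 then Uᶜ else ∅) = 0 := by
          split_ifs
          · exact hUc
          · exact measure_empty
        rw [this, add_zero]
      · exact measure_mono Set.subset_union_left
  have hint : Integrable (fun ω => (τ ω : ℝ)) ν := by
    refine ⟨(measurable_from_nat (f := fun n : ℕ => (n : ℝ)) |>.comp hτm).aestronglyMeasurable, ?_⟩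
    rw [hasFiniteIntegral_iff_ofReal (Eventually.of_forall fun ω => Nat.cast_nonneg _)]
    have h1 : ∫⁻ ω, ENNReal.ofReal (τ ω : ℝ) ∂ν =
        ∫⁻ n, ENNReal.ofReal (n : ℝ) ∂(ν.map τ) := by
      rw [lintegral_map measurable_from_nat hτm]
    rw [h1, lintegral_countable']
    have h2 : ∀ k : ℕ, ENNReal.ofReal (k : ℝ) * (ν.map τ) {k} =
        ENNReal.ofReal ((k : ℝ) * f k) := by
      intro k
      rw [Measure.map_apply hτm (measurableSet_singleton k), hντ k,
        ENNReal.ofReal_mul (Nat.cast_nonneg k)]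
    rw [tsum_congr h2, ← ENNReal.ofReal_tsum_of_nonneg
      (fun k => mul_nonneg (Nat.cast_nonneg k) (hfnn k)) hkf]
    exact ENNReal.ofReal_lt_top
  set T : Ω → Ω := fun ω => S (τ ω) ω with hT
  have hTm : Measurable T := by
    have h1 : Measurable (fun p : ℕ × Ω => S p.1 p.2) := measurable_from_prod_countable_right hS
    exact h1.comp (hτm.prodMk measurable_id)
  have hTmp : MeasurePreserving T ν ν := by
    refine ⟨hTm, ?_⟩
    ext B hB
    rw [Measure.map_apply hTm hB]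
    have h1 : ν (T ⁻¹' B) = ν (T ⁻¹' B ∩ U) := by
      have := measure_inter_add_sdiff (μ := ν) (T ⁻¹' B) hUm
      rw [← this]
      have h2 : ν (T ⁻¹' B \ U) = 0 := measure_mono_null (fun ω hω => hω.2) hUc
      rw [h2, add_zero]
    have h3 : T ⁻¹' B ∩ U = ⋃ k : ℕ, (Fst Reg (k + 1) ∩ S (k + 1) ⁻¹' B) := by
      ext ω
      rw [hU]
      simp only [Set.mem_inter_iff, Set.mem_preimage, Set.mem_iUnion]
      constructor
      · rintro ⟨h4, k, h5⟩
        refine ⟨k, h5, ?_⟩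
        have : T ω = S (k + 1) ω := by
          simp only [hT]
          rw [hτF k ω h5]
        rwa [← this]
      · rintro ⟨k, h5, h6⟩
        refine ⟨?_, k, h5⟩
        have : T ω = S (k + 1) ω := by
          simp only [hT]
          rw [hτF k ω h5]
        rwa [this]
    rw [h1, h3, measure_iUnion]
    · have h6 : ∀ k : ℕ, ν (Fst Reg (k + 1) ∩ S (k + 1) ⁻¹' B) = ν (Fst Reg (k + 1)) * ν B :=
        fun k => hren (k + 1) (by omega) B hB
      rw [tsum_congr h6, ENNReal.tsum_mul_right, hts, one_mul]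
    · intro k l hkl
      exact (hdis hkl).mono Set.inter_subset_left Set.inter_subset_left
    · intro k
      exact (measurableSet_Fst hReg _).inter (hS _ hB)
  -- iterates
  have hae : ∀ᵐ ω ∂ν, ∀ i : ℕ, T^[i] ω ∈ U := by
    rw [ae_all_iff]
    intro i
    exact (hTmp.iterate i).quasiMeasurePreserving.ae hUae
  apply Pool.Agent.Helper42.Speed.speed_of_regen ν T hTmp τ hτm hτ1 hint d hd hd0 hnn hlip
  filter_upwards [hae] with ω hω
  have key : ∀ m : ℕ, 1 ≤ m → 1 ≤ ∑ k ∈ Finset.range m, τ (T^[k] ω) ∧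
      ω ∈ Reg (∑ k ∈ Finset.range m, τ (T^[k] ω)) ∧
      T^[m] ω = S (∑ k ∈ Finset.range m, τ (T^[k] ω)) ω := by
    intro m hm
    induction m, hm using Nat.le_induction with
    | base =>
      simp only [Finset.sum_range_one, Function.iterate_zero, id_eq, Function.iterate_one]
      refine ⟨hτ1 ω, ?_, rfl⟩
      exact (hτU ω (by simpa using hω 0)).1
    | succ m hm ih =>
      obtain ⟨ih1, ih2, ih3⟩ := ih
      rw [Finset.sum_range_succ]
      set t := ∑ k ∈ Finset.range m, τ (T^[k] ω) with ht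
      have h1 : T^[m] ω ∈ Reg (τ (T^[m] ω)) := (hτU _ (hω m)).1
      have h2 := hcomp t (τ (T^[m] ω)) ω ih1 (hτ1 _) ih2
      have h3 : ω ∈ Reg (t + τ (T^[m] ω)) := by
        apply h2.1.2
        rw [← ih3]
        exact h1
      refine ⟨by omega, h3, ?_⟩
      rw [h2.2 h3, ← ih3, Function.iterate_succ_apply']
  intro m n
  rcases Nat.eq_zero_or_pos m with hm | hm
  · subst hm
    simp [hd0]
  · obtain ⟨k1, k2, k3⟩ := key m hm
    rw [k3]
    exact hsub _ n ω k1 k2

end Pool.Agent.Helper97.Speed
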